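import Pool.Agent.helper93.ADV.SpecU

set_option autoImplicit false

namespace Pool.Agent.ADV

open Finset Pool.Agent.helper38.Neg Pool.Agent.helper55.NT Pool.Agent.LNB

theorem AVG_wtu_le (u n : ℕ) (z : Fin n → Bool) : wtu u z ≤ min u n := by
  unfold wtu
  refine le_trans (Finset.card_le_card (t := univ.filter fun i : Fin n => (i : ℕ) < u) ?_) ?_
  · intro i hi
    simp only [Finset.mem_filter, Finset.mem_univ, true_and] at hi ⊢
    exact hi.1
  · refine le_min ?_ ?_
    · have h : ((univ.filter fun i : Fin n => (i : ℕ) < u).image fun i : Fin n => (i : ℕ)) ⊆ Finset.range u := by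
        intro j hj
        simp only [Finset.mem_image, Finset.mem_filter, Finset.mem_univ, true_and] at hj
        obtain ⟨i, hi, rfl⟩ := hj
        exact Finset.mem_range.2 hi
      have h2 := Finset.card_le_card h
      rw [Finset.card_image_of_injective _ Fin.val_injective, Finset.card_range] at h2
      exact h2
    · refine le_trans (Finset.card_filter_le _ _) ?_
      simp

theorem AVG_point (u K w : ℕ) (hK : 1 ≤ K) {n : ℕ} (f : Fn n) (z : Fin n → Bool) :
    ((if (winu u (w * K) K f z = true ↔ f z = true) then (1 : ℝ) else 0) -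
      (if (winu u (w * K) K (fun x => !(f x)) z = true ↔ f z = true) then (1 : ℝ) else 0)) =
      if w = wtu u z / K then 1 else 0 := by
  have hK0 : 0 < K := hK
  unfold winu
  rcases lt_trichotomy w (wtu u z / K) with h | h | h
  · have h1 : w * K + K ≤ wtu u z := by
      have : (w + 1) * K ≤ wtu u z := by
        exact le_trans (Nat.mul_le_mul_right K h) (Nat.div_mul_le_self _ _)
      linarith [this, Nat.succ_mul w K]
    have h3 : ¬ (w = wtu u z / K) := by omega
    rw [if_neg h3]
    simp [h1]
  · have h1 : ¬ (w * K + K ≤ wtu u z) := by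
      rw [h]
      have := Nat.lt_div_mul_add (a := wtu u z) hK0
      omega
    have h2 : w * K ≤ wtu u z := by
      rw [h]
      exact Nat.div_mul_le_self _ _
    rw [if_pos h]
    cases hf : f z <;> simp [h1, h2, hf]
  · have h2 : ¬ (w * K ≤ wtu u z) := by
      intro h'
      have := (Nat.le_div_iff_mul_le hK0).2 h'
      omega
    have h1 : ¬ (w * K + K ≤ wtu u z) := by omega
    have h3 : ¬ (w = wtu u z / K) := by omega
    rw [if_neg h3]
    cases hf : f z <;> simp [h1, h2]

theorem AVG : AVG_stmt := by
  classical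
  intro n u K hK f D hD
  have hK0 : 0 < K := hK
  obtain ⟨N, hN⟩ : ∃ N : ℕ, (min u n + K) / K = N := ⟨_, rfl⟩
  rw [hN]
  have hNpos : 1 ≤ N := by
    rw [← hN]
    exact (Nat.one_le_div_iff hK0).2 (Nat.le_add_left K _)
  by_contra hcon
  push Not at hcon
  have hN' : (0 : ℝ) < (N : ℝ) := by exact_mod_cast hNpos
  have hsum : ∑ w ∈ Finset.range N, (agr D (fun x => f x = true) (winu u (w * K) K f) -
      agr D (fun x => f x = true) (winu u (w * K) K fun x => !(f x))) = 1 := by
    have h1 : ∀ w : ℕ, (agr D (fun x => f x = true) (winu u (w * K) K f) -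
      agr D (fun x => f x = true) (winu u (w * K) K fun x => !(f x))) =
        ∑ z, D z * (if w = wtu u z / K then 1 else 0) := by
      intro w
      unfold agr
      rw [← Finset.sum_sub_distrib]
      refine Finset.sum_congr rfl fun z _ => ?_
      rw [← AVG_point u K w hK f z]
      split_ifs <;> simp
    simp_rw [h1]
    rw [Finset.sum_comm]
    have h2 : ∀ z : Fin n → Bool, ∑ w ∈ Finset.range N, D z * (if w = wtu u z / K then (1 : ℝ) else 0) = D z := by
      intro z
      rw [← Finset.mul_sum, Finset.sum_ite_eq', if_pos, mul_one]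
      rw [Finset.mem_range, ← hN, Nat.add_div_right _ hK0]
      exact Nat.lt_succ_of_le (Nat.div_le_div_right (AVG_wtu_le u n z))
    rw [Finset.sum_congr rfl fun z _ => h2 z]
    exact hD.2
  have hlt : ∑ w ∈ Finset.range N, (agr D (fun x => f x = true) (winu u (w * K) K f) -
      agr D (fun x => f x = true) (winu u (w * K) K fun x => !(f x))) < ∑ w ∈ Finset.range N, (1 / (N : ℝ)) := by
    refine Finset.sum_lt_sum_of_nonempty ⟨0, Finset.mem_range.2 hNpos⟩ fun w _ => ?_
    have h := hcon (w * K)
    unfold adv at h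
    have h1 := (abs_lt.1 h.1).2
    have h2 := (abs_lt.1 h.2).1
    have h3 : 1 / (2 * (N : ℝ)) + 1 / (2 * (N : ℝ)) = 1 / (N : ℝ) := by
      field_simp
      norm_num
    linarith
  rw [hsum, Finset.sum_const, Finset.card_range, nsmul_eq_mul, mul_one_div, div_self hN'.ne'] at hlt
  exact lt_irrefl _ hlt

end Pool.Agent.ADV
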