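import Pool.Agent.helper91.ADV.SpecL

set_option autoImplicit false

namespace Pool.Agent.ADV

open Finset Pool.Agent.helper55.NT Pool.Agent.LNB Pool.Agent.NG Pool.Agent.PB Pool.Agent.PC

theorem NUD : NUD_stmt := by
  intro e r h
  obtain ⟨he, hr, h32⟩ := h
  obtain ⟨t, ht⟩ : ∃ t : ℕ, 2 ^ e = t := ⟨_, rfl⟩
  obtain ⟨m, hm⟩ : ∃ m : ℕ, 6 * e * (r + 1) = m := ⟨_, rfl⟩
  have ht2 : 2 ^ (2 * e) = t * t := by
    rw [← ht, two_mul, pow_add]
  rw [ht] at h32 ⊢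
  rw [hm, ht2]
  have h1 : 2 * (m + 1) + 2 ≤ t := by
    refine le_trans ?_ h32
    rw [← hm]
    have h2 : e * 2 ≤ e * r := Nat.mul_le_mul_left e hr
    have h3 : 6 * e * (r + 1) = 6 * (e * r) + 6 * e := by ring
    have h4 : 32 * e * r = 32 * (e * r) := by ring
    rw [h3, h4]
    omega
  have hmul : 2 * t * (m + 1) + 2 * t ≤ t * t := by
    have := Nat.mul_le_mul_left t h1
    nlinarith [this]
  have h5 : ((2 : ℝ) ^ m + 1) ^ (2 * t) ≤ 2 ^ (2 * t * (m + 1)) := by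
    have h6 : (2 : ℝ) ^ m + 1 ≤ 2 ^ (m + 1) := by
      rw [pow_succ]
      have : (1 : ℝ) ≤ 2 ^ m := one_le_pow₀ (by norm_num)
      linarith
    calc ((2 : ℝ) ^ m + 1) ^ (2 * t) ≤ ((2 : ℝ) ^ (m + 1)) ^ (2 * t) :=
          pow_le_pow_left₀ (by positivity) h6 _
      _ = 2 ^ (2 * t * (m + 1)) := by rw [← pow_mul]; congr 1; ring
  have h7 : ((2 : ℝ) ^ m + 1) ^ (2 * t) / 2 ^ (t * t) ≤ 1 / 4 ^ t := by
    rw [div_le_div_iff₀ (by positivity) (by positivity), one_mul]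
    calc ((2 : ℝ) ^ m + 1) ^ (2 * t) * 4 ^ t ≤ 2 ^ (2 * t * (m + 1)) * 4 ^ t :=
          mul_le_mul_of_nonneg_right h5 (by positivity)
      _ = 2 ^ (2 * t * (m + 1) + 2 * t) := by
          rw [pow_add]
          congr 1
          rw [pow_mul]
          norm_num
      _ ≤ 2 ^ (t * t) := pow_le_pow_right₀ (by norm_num) hmul
  have ht0 : 1 ≤ t := by omega
  have h8 : (1 : ℝ) / 4 ^ t + 1 / 4 ^ t ≤ 1 / 2 ^ t := by
    have h9 : (4 : ℝ) ^ t = 2 ^ t * 2 ^ t := by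
      rw [← mul_pow]
      norm_num
    have h10 : (2 : ℝ) ≤ 2 ^ t := by
      calc (2 : ℝ) = 2 ^ 1 := by norm_num
        _ ≤ 2 ^ t := pow_le_pow_right₀ (by norm_num) ht0
    rw [h9, ← add_div, div_le_div_iff₀ (by positivity) (by positivity)]
    nlinarith [pow_pos (show (0 : ℝ) < 2 by norm_num) t]
  linarith

end Pool.Agent.ADV
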